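import Mathlib
import Pool.Agent.KS6_66.MO.Signed
import Pool.Agent.KS6_66.MO.All

set_option autoImplicit false

/-!
# Median eigenvalues of graphs of every maximum degree

For every `d ≥ 2`, every finite graph `G` of maximum degree at most `d` and every signed adjacency
matrix of `G` without negative four-cycles (in particular the adjacency matrix itself, and its
negative), both median eigenvalues lie in `[-√(d-1), √(d-1)]`; moreover at most
`(1/2 - 1/(1000 d²)) n` of the `n` eigenvalues are smaller than `-√(d-1)`, and at most that many are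
larger than `√(d-1)`.

The proof is by linear programming with integrality constraints: for each `d` there is an auxiliary
function `a₀ + a₁ x + a₂ x² - a₄ x⁴ - ∑ h_j log |q_j(x)|` with integer polynomials `q_j` and
nonnegative `h_j`, `a₄`, which on `[-d, d]` is at least the indicator function of `x < -√(d-1)` (after
averaging over the roots of the `q_j`) and whose mean over the spectrum is less than `1/2`.
-/

namespace Pool.Agent.Results.MP_46d9e0_co.AllMaximumDegrees

open Finset

/-- `A` is a signed adjacency matrix of `G` all of whose four-cycles are positive: `A` is symmetric,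
its entries are `1` or `-1` at the edges of `G` and `0` elsewhere, and the product of the four entries
along every four-cycle of `G` is `1`. -/
structure PositiveFourCycles {V : Type*} (G : SimpleGraph V) (A : Matrix V V ℝ) : Prop where
  symm : ∀ i j, A i j = A j i
  edge : ∀ i j, G.Adj i j → A i j = 1 ∨ A i j = -1
  nonedge : ∀ i j, ¬ G.Adj i j → A i j = 0
  four : ∀ i j k l, G.Adj i j → G.Adj j k → G.Adj k l → G.Adj l i → i ≠ k → j ≠ l →
    A i j * A j k * A k l * A l i = 1

/-- The adjacency matrix is such a matrix. -/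
theorem positiveFourCycles_adjMatrix {V : Type*} (G : SimpleGraph V) [DecidableRel G.Adj] :
    PositiveFourCycles G (G.adjMatrix ℝ) where
  symm i j := by simp [SimpleGraph.adjMatrix_apply, G.adj_comm]
  edge i j h := by simp [SimpleGraph.adjMatrix_apply, h]
  nonedge i j h := by simp [SimpleGraph.adjMatrix_apply, h]
  four i j k l h1 h2 h3 h4 _ _ := by simp [SimpleGraph.adjMatrix_apply, h1, h2, h3, h4]

/-- The integral version of a signed adjacency matrix. -/
theorem exists_signing {V : Type*} (G : SimpleGraph V) (A : Matrix V V ℝ)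
    (h : PositiveFourCycles G A) : ∃ M : Matrix V V ℤ, Pool.Agent.KS6_66.MO.IsSigning G M ∧
      A = M.map (Int.castRingHom ℝ) := by
  classical
  have hex : ∀ i j, ∃ m : ℤ, (m : ℝ) = A i j := by
    intro i j
    by_cases hij : G.Adj i j
    · rcases h.edge i j hij with h1 | h1
      · exact ⟨1, by rw [h1]; norm_num⟩
      · exact ⟨-1, by rw [h1]; norm_num⟩
    · exact ⟨0, by rw [h.nonedge i j hij]; norm_num⟩
  choose M hM using hex
  refine ⟨Matrix.of M, ⟨?_, ?_, ?_, ?_⟩, ?_⟩
  · intro i j
    have : ((M j i : ℤ) : ℝ) = ((M i j : ℤ) : ℝ) := by rw [hM, hM, h.symm]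
    exact_mod_cast this
  · intro i j hij
    rcases h.edge i j hij with h1 | h1
    · left
      have : ((M i j : ℤ) : ℝ) = ((1 : ℤ) : ℝ) := by rw [hM, h1]; norm_num
      exact_mod_cast this
    · right
      have : ((M i j : ℤ) : ℝ) = ((-1 : ℤ) : ℝ) := by rw [hM, h1]; norm_num
      exact_mod_cast this
  · intro i j hij
    have : ((M i j : ℤ) : ℝ) = ((0 : ℤ) : ℝ) := by rw [hM, h.nonedge i j hij]; norm_num
    exact_mod_cast this
  · intro i j k l h1 h2 h3 h4 h5 h6
    have : ((M i j * M j k * M k l * M l i : ℤ) : ℝ) = ((1 : ℤ) : ℝ) := by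
      push_cast
      rw [hM, hM, hM, hM]
      exact h.four i j k l h1 h2 h3 h4 h5 h6
    exact_mod_cast this
  · ext i j
    rw [Matrix.map_apply, Matrix.of_apply]
    exact (hM i j).symm

/-- **Median eigenvalues for every maximum degree.** Let `d ≥ 2`, let `G` be a finite graph with `n`
vertices and maximum degree at most `d`, and let `A` be the adjacency matrix of `G` or, more
generally, a signed adjacency matrix of `G` all of whose four-cycles are positive. Let
`hA.eigenvalues₀ 0 ≥ ⋯ ≥ hA.eigenvalues₀ (n - 1)` be its eigenvalues with multiplicity, so that the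
entry number `i` is `λ_{i + 1}`. Then
* both median eigenvalues `λ_h`, `λ_l` with `h = ⌊(n + 1) / 2⌋` and `l = ⌈(n + 1) / 2⌉` lie in
  `[-√(d - 1), √(d - 1)]`;
* at most `(1 / 2 - 1 / (1000 d ^ 2)) n` of the eigenvalues are smaller than `-√(d - 1)`;
* at most `(1 / 2 - 1 / (1000 d ^ 2)) n` of the eigenvalues are larger than `√(d - 1)`. -/
theorem result (d : ℕ) (hd : 2 ≤ d) (V : Type*) [Fintype V] [DecidableEq V]
    (G : SimpleGraph V) [DecidableRel G.Adj] (hG : G.maxDegree ≤ d)
    (A : Matrix V V ℝ) (hA : A.IsHermitian)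
    (hAG : A = G.adjMatrix ℝ ∨ PositiveFourCycles G A) :
    (∀ i : Fin (Fintype.card V), ((i : ℤ) + 1 = ⌊((Fintype.card V : ℝ) + 1) / 2⌋ ∨
        (i : ℤ) + 1 = ⌈((Fintype.card V : ℝ) + 1) / 2⌉) →
      -Real.sqrt ((d : ℝ) - 1) ≤ hA.eigenvalues₀ i ∧
        hA.eigenvalues₀ i ≤ Real.sqrt ((d : ℝ) - 1)) ∧
    ((univ.filter (fun i => hA.eigenvalues₀ i < -Real.sqrt ((d : ℝ) - 1))).card : ℝ) ≤
      (1 / 2 - 1 / (1000 * (d : ℝ) ^ 2)) * Fintype.card V ∧
    ((univ.filter (fun i => Real.sqrt ((d : ℝ) - 1) < hA.eigenvalues₀ i)).card : ℝ) ≤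
      (1 / 2 - 1 / (1000 * (d : ℝ) ^ 2)) * Fintype.card V := by
  have hP : PositiveFourCycles G A := by
    rcases hAG with h | h
    · rw [h]; exact positiveFourCycles_adjMatrix G
    · exact h
  obtain ⟨M, hM, rfl⟩ := exists_signing G A hP
  exact (hM.good d hG).final hd

end Pool.Agent.Results.MP_46d9e0_co.AllMaximumDegrees
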